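import Pool.Agent.Helper25_CN2.All
import Pool.Agent.Helper25_CN3.All
import Pool.Agent.Helper2_CN3.All
import Pool.Agent.Helper2_CN3.Table

/-!
# Maximal reflective non-uniform arithmetic lattices which are congruence subgroups, n ≥ 10

Complete answer to Q2 of MP_6d18f4_al. For n ≥ 10 there are, up to conjugacy, exactly 13 maximal
reflective non-uniform arithmetic lattices which are congruence subgroups: 6 for n = 10, 4 for
n = 11, 2 for n = 12, 1 for n = 13 and none for n ≥ 14. They are the groups generated by all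
reflections of the lattices U + R, where U is the hyperbolic plane and R is

* n = 10: E8 + A1, E8 + A1(2), E8 + A1(3), E7 + A1 + A1, D5 + D4, D4 + D4 + A1;
* n = 11: E8 + A2, E8 + A1 + A1, E8 + A1 + A1(2), D6 + D4;
* n = 12: E8 + A3, E8 + A1 + A1 + A1;
* n = 13: E8 + D4

(A1(2) and A1(3) are the lattices of rank one with a generator of norm 4 and 6).
-/

set_option autoImplicit false

noncomputable section

namespace Pool.Agent.Results.MP_6d18f4_al.Classification

open Pool.Agent.CN2 (Ty ent blk gr hyp)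

/-! ### The Lorentzian space, reflections, arithmetic groups -/

/-- The real vector space of dimension n + 1, with coordinates x 0, ..., x n. -/
abbrev V (n : ℕ) := Fin (n + 1) → ℝ

/-- The Lorentzian form - x0 y0 + x1 y1 + ... + xn yn of signature (n, 1). -/
def B {n : ℕ} (x y : V n) : ℝ := (∑ i, x i * y i) - 2 * (x 0 * y 0)

variable {n : ℕ}

/-- g is the reflection in a vector r of positive norm. -/
def IsReflection (g : V n ≃ₗ[ℝ] V n) : Prop :=
  ∃ r : V n, 0 < B r r ∧ ∀ x, g x = x - (2 * B x r / B r r) • r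

/-- G is generated by reflections. A group of this kind acts faithfully on hyperbolic space. -/
def Reflective (G : Subgroup (V n ≃ₗ[ℝ] V n)) : Prop :=
  G = Subgroup.closure {g | g ∈ G ∧ IsReflection g}

/-- Λ is a lattice on which a multiple of B is a quadratic form with integral coefficients:
it is spanned by a basis of the space whose Gram matrix is c > 0 times an integral matrix. -/
def IsIntegralLattice (Λ : Submodule ℤ (V n)) : Prop :=
  ∃ (b : Module.Basis (Fin (n + 1)) ℝ (V n)) (c : ℝ), 0 < c ∧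
    (∀ i j, ∃ k : ℤ, B (b i) (b j) = c * k) ∧ Λ = Submodule.span ℤ (Set.range b)

/-- g is a linear isometry of B which maps the lattice Λ onto itself. -/
def IsAut (Λ : Submodule ℤ (V n)) (g : V n ≃ₗ[ℝ] V n) : Prop :=
  (∀ x y, B (g x) (g y) = B x y) ∧ ∀ x, g x ∈ Λ ↔ x ∈ Λ

lemma IsAut.mul {Λ : Submodule ℤ (V n)} {g h : V n ≃ₗ[ℝ] V n} (hg : IsAut Λ g)
    (hh : IsAut Λ h) : IsAut Λ (g * h) :=
  Pool.Agent.H25Cong.IsAut.mul hg hh

lemma IsAut.one {Λ : Submodule ℤ (V n)} : IsAut Λ (1 : V n ≃ₗ[ℝ] V n) :=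
  Pool.Agent.H25Cong.IsAut.one

lemma IsAut.inv {Λ : Submodule ℤ (V n)} {g : V n ≃ₗ[ℝ] V n} (hg : IsAut Λ g) :
    IsAut Λ g⁻¹ :=
  Pool.Agent.H25Cong.IsAut.inv hg

/-- The group O(Λ) of all linear isometries of B which map the lattice Λ onto itself: this is
O(f, ℤ), where f is the integral quadratic form of signature (n, 1) defined by Λ. -/
def O (Λ : Submodule ℤ (V n)) : Subgroup (V n ≃ₗ[ℝ] V n) where
  carrier := {g | IsAut Λ g}
  mul_mem' := IsAut.mul
  one_mem' := IsAut.one
  inv_mem' := IsAut.inv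

/-- G is a reflective arithmetic lattice: it is generated by reflections and commensurable with
O(Λ) for an integral lattice Λ of the Lorentzian space. -/
def ReflectiveArithmetic (G : Subgroup (V n ≃ₗ[ℝ] V n)) : Prop :=
  Reflective G ∧ ∃ Λ : Submodule ℤ (V n), IsIntegralLattice Λ ∧ Subgroup.Commensurable G (O Λ)

/-- G is a maximal reflective arithmetic lattice. -/
def MaximalReflective (G : Subgroup (V n ≃ₗ[ℝ] V n)) : Prop :=
  ReflectiveArithmetic G ∧ ∀ G', ReflectiveArithmetic G' → G ≤ G' → G' = G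

/-- G is uniform (cocompact): hyperbolic space is covered by the translates of a bounded set. -/
def Uniform (G : Subgroup (V n ≃ₗ[ℝ] V n)) : Prop :=
  ∃ R : ℝ, ∀ v : V n, B v v = -1 → ∃ g ∈ G, ∀ i, |g v i| ≤ R

/-- g is congruent to the identity modulo N on the lattice Λ. -/
def IsOneMod (Λ : Submodule ℤ (V n)) (N : ℕ) (g : V n ≃ₗ[ℝ] V n) : Prop :=
  ∀ x ∈ Λ, ∃ y ∈ Λ, g x - x = (N : ℝ) • y

/-- g and h act in the same way on hyperbolic space: they are equal up to sign. -/
def SameAction (g h : V n ≃ₗ[ℝ] V n) : Prop := (∀ x, h x = g x) ∨ (∀ x, h x = - g x)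

/-- G is a congruence subgroup: for some integral lattice Λ and some N ≥ 1 it is commensurable
with O(Λ) and it contains, as a group acting on hyperbolic space (that is, up to sign), the
principal congruence subgroup of level N of O(Λ). -/
def IsCongruence (G : Subgroup (V n ≃ₗ[ℝ] V n)) : Prop :=
  ∃ (Λ : Submodule ℤ (V n)) (N : ℕ), IsIntegralLattice Λ ∧ 0 < N ∧
    Subgroup.Commensurable G (O Λ) ∧
    ∀ g ∈ O Λ, IsOneMod Λ N g → ∃ h ∈ G, SameAction g h

/-- G and G' are conjugate by an isometry g of B: G' = g G g⁻¹. -/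
def Conjugate (G G' : Subgroup (V n ≃ₗ[ℝ] V n)) : Prop :=
  ∃ g : V n ≃ₗ[ℝ] V n, (∀ x y, B (g x) (g y) = B x y) ∧
    ∀ h, h ∈ G' ↔ ∃ k ∈ G, ∀ x, h (g x) = g (k x)

/-! ### The 13 groups -/

/-- The 13 pairs (n, R). R is a list of pairs (type, s): it stands for the orthogonal sum of the
root lattices of the given types A_k, D_k, E_k, scaled by s. -/
def table : List (ℕ × List (Ty × ℤ)) :=
  [(10, [(.E 8, 1), (.A 1, 1)]), (10, [(.E 8, 1), (.A 1, 2)]), (10, [(.E 8, 1), (.A 1, 3)]),
   (10, [(.E 7, 1), (.A 1, 1), (.A 1, 1)]), (10, [(.D 5, 1), (.D 4, 1)]),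
   (10, [(.D 4, 1), (.D 4, 1), (.A 1, 1)]),
   (11, [(.E 8, 1), (.A 2, 1)]), (11, [(.E 8, 1), (.A 1, 1), (.A 1, 1)]),
   (11, [(.E 8, 1), (.A 1, 1), (.A 1, 2)]), (11, [(.D 6, 1), (.D 4, 1)]),
   (12, [(.E 8, 1), (.A 3, 1)]), (12, [(.E 8, 1), (.A 1, 1), (.A 1, 1), (.A 1, 1)]),
   (13, [(.E 8, 1), (.D 4, 1)])]

/-- The Gram matrix of U + R: the block diagonal matrix with the blocks (0, -1; -1, 0) (the
hyperbolic plane U) and s times the Cartan matrix of the type T, for the pairs (T, s) of R. -/
def gram (R : List (Ty × ℤ)) (i j : ℕ) : ℤ := ent (blk hyp (gr R)) i j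

/-- G is the group generated by all reflections which map a lattice L of type U + R (the
ℤ-span of a basis a with Gram matrix `gram R`) into itself. -/
def IsReflectionGroupOf (R : List (Ty × ℤ)) (G : Subgroup (V n ≃ₗ[ℝ] V n)) : Prop :=
  ∃ a : Module.Basis (Fin (n + 1)) ℝ (V n), (∀ i j, B (a i) (a j) = gram R i j) ∧
    G = Subgroup.closure {g | IsReflection g ∧
      ∀ x ∈ Submodule.span ℤ (Set.range a), g x ∈ Submodule.span ℤ (Set.range a)}

/-- **The classification.**
(1) For n ≥ 10, G is a maximal reflective arithmetic lattice which is not uniform and which is a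
congruence subgroup if and only if G is the reflection group of a lattice of type U + R, (n, R)
one of the 13 entries of the table.
(2) Each entry of the table occurs.
(3) The groups of two entries with the same n are conjugate if and only if the entries are
equal. -/
theorem result :
    (∀ n : ℕ, 10 ≤ n → ∀ G : Subgroup (V n ≃ₗ[ℝ] V n),
      (MaximalReflective G ∧ ¬ Uniform G ∧ IsCongruence G) ↔
        ∃ R, (n, R) ∈ table ∧ IsReflectionGroupOf R G) ∧
    (∀ n R, (n, R) ∈ table → ∃ G : Subgroup (V n ≃ₗ[ℝ] V n), IsReflectionGroupOf R G) ∧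
    (∀ n R R', (n, R) ∈ table → (n, R') ∈ table → ∀ G G' : Subgroup (V n ≃ₗ[ℝ] V n),
      IsReflectionGroupOf R G → IsReflectionGroupOf R' G' → (Conjugate G G' ↔ R = R')) :=
  Pool.Agent.CN3.Table.main Pool.Agent.CN2.mods2 (Pool.Agent.CN3.mods3 Pool.Agent.CN3.pR_ORT)

end Pool.Agent.Results.MP_6d18f4_al.Classification

end
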